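import Pool.Agent.Lib.MP_85963d_gt.H89.Poly

/-!
# Module MN: the polynomial spaces
-/

set_option autoImplicit false

open MeasureTheory Set Filter Topology Quaternion
open scoped Real ContDiff

namespace Pool.Agent.MP85963d.H89

open SF

/-- right translate, chosen in `MN n` -/
theorem exists_rfam (n : ℕ) (F : SF) (hF : F ∈ MN n) : ∃ T : ℍ → SF, (∀ ρ, T ρ ∈ MN n) ∧
    ∀ ρ, ρ ≠ 0 → ∀ x, T ρ x = F (x * ρ) := by
  classical
  choose! T hT using fun (ρ : ℍ) (hρ : ρ ≠ 0) => rcomp n ρ F hρ hF
  refine ⟨fun ρ => if ρ = 0 then 0 else T ρ, fun ρ => ?_, fun ρ hρ x => ?_⟩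
  · change (if ρ = 0 then 0 else T ρ) ∈ MN n
    by_cases h : ρ = 0
    · rw [if_pos h]; exact (MN n).zero_mem
    · rw [if_neg h]; exact (hT ρ h).1
  · have e : (if ρ = 0 then 0 else T ρ) = T ρ := if_neg hρ
    change (if ρ = 0 then 0 else T ρ) x = _
    rw [e]; exact (hT ρ hρ).2 x

theorem exists_lfam (n : ℕ) (F : SF) (hF : F ∈ MN n) : ∃ T : ℍ → SF, (∀ ρ, T ρ ∈ MN n) ∧
    ∀ ρ, ρ ≠ 0 → ∀ x, T ρ x = F (ρ * x) := by
  classical
  choose! T hT using fun (ρ : ℍ) (hρ : ρ ≠ 0) => lcomp n ρ F hρ hF
  refine ⟨fun ρ => if ρ = 0 then 0 else T ρ, fun ρ => ?_, fun ρ hρ x => ?_⟩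
  · change (if ρ = 0 then 0 else T ρ) ∈ MN n
    by_cases h : ρ = 0
    · rw [if_pos h]; exact (MN n).zero_mem
    · rw [if_neg h]; exact (hT ρ h).1
  · have e : (if ρ = 0 then 0 else T ρ) = T ρ := if_neg hρ
    change (if ρ = 0 then 0 else T ρ) x = _
    rw [e]; exact (hT ρ hρ).2 x

theorem ev_ne (a : ℍ) : ∀ᶠ t in 𝓝 (0 : ℝ), (1 : ℍ) + t • a ≠ 0 := by
  have h : Continuous fun t : ℝ => (1 : ℍ) + t • a := by fun_prop
  have h1 := h.tendsto 0
  rw [zero_smul, add_zero] at h1
  exact h1.eventually_ne one_ne_zero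

theorem R_mem (n : ℕ) (a : ℍ) (F : SF) (hF : F ∈ MN n) : R a F ∈ MN n := by
  obtain ⟨T, hT, hT2⟩ := exists_rfam n F hF
  refine mem_of_deriv (MN n) (R a F) (fun t => T (1 + t • a)) (Eventually.of_forall fun t => hT _)
    fun x hx => ?_
  have h1 : HasDerivAt (fun t : ℝ => x * (1 + t • a)) (x * a) 0 := by
    have := ((hasDerivAt_id (0 : ℝ)).smul_const a).const_add (1 : ℍ)
    have := this.const_mul x
    simpa using this
  have h2 : HasFDerivAt F (fderiv ℝ F x) (x * (1 + (0 : ℝ) • a)) := by
    rw [zero_smul, add_zero, mul_one]; exact F.hasFDerivAt hx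
  have h3 := HasFDerivAt.comp_hasDerivAt (0 : ℝ) h2 h1
  rw [R_apply]
  refine h3.congr_of_eventuallyEq ?_
  filter_upwards [ev_ne a] with t ht
  exact hT2 _ ht x

theorem Z_mem (n : ℕ) (a : ℍ) (F : SF) (hF : F ∈ MN n) : Z a F ∈ MN n := by
  obtain ⟨T, hT, hT2⟩ := exists_lfam n F hF
  refine mem_of_deriv (MN n) (Z a F) (fun t => T (1 + t • a)) (Eventually.of_forall fun t => hT _)
    fun x hx => ?_
  have h1 : HasDerivAt (fun t : ℝ => (1 + t • a) * x) (a * x) 0 := by
    have := ((hasDerivAt_id (0 : ℝ)).smul_const a).const_add (1 : ℍ)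
    have := this.mul_const x
    simpa using this
  have h2 : HasFDerivAt F (fderiv ℝ F x) ((1 + (0 : ℝ) • a) * x) := by
    rw [zero_smul, add_zero, one_mul]; exact F.hasFDerivAt hx
  have h3 := HasFDerivAt.comp_hasDerivAt (0 : ℝ) h2 h1
  rw [Z_apply]
  refine h3.congr_of_eventuallyEq ?_
  filter_upwards [ev_ne a] with t ht
  exact hT2 _ ht x

theorem continuous_rot (a : ℍ) : Continuous (rot a) := by
  unfold rot
  fun_prop

theorem continuous_flow {f : ℍ → ℝ} (hf : ContinuousOn f {0}ᶜ) {a : ℍ} (ha : IsImUnit a) {x : ℍ}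
    (hx : x ≠ 0) : Continuous fun t => f (x * rot a t) := by
  have h : Continuous fun t => x * rot a t := continuous_const.mul (continuous_rot a)
  exact hf.comp_continuous h fun t => rrot_ne_zero ha hx t

theorem avg_mem (n : ℕ) (F : SF) (hF : F ∈ MN n) {a : ℍ} (ha : IsImUnit a) :
    ∃ G ∈ MN n, ∀ x : ℍ, x ≠ 0 →
      G x = (1 / (2 * π)) * ∫ t in (0:ℝ)..(2 * π), F (x * rot a t) := by
  obtain ⟨T, hT, hT2⟩ := exists_rfam n F hF
  refine mem_of_integral (MN n) _ (fun t => (1 / (2 * π)) • T (rot a t)) 0 (2 * π)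
    (fun t => (MN n).smul_mem _ (hT _)) (fun x => ?_) fun x hx => ?_
  · have e : (fun t => ((1 / (2 * π)) • T (rot a t)) x)
        = fun t => (1 / (2 * π)) * F (x * rot a t) := by
      funext t
      rw [SF.smul_apply, hT2 _ (rot_ne_zero ha t)]
    rw [e]
    by_cases hx : x = 0
    · subst hx
      simp only [zero_mul, SF.map_zero', mul_zero]
      exact intervalIntegrable_const
    · exact (continuous_const.mul
        (continuous_flow F.continuousOn ha hx)).intervalIntegrable _ _
  · have e : (fun t => ((1 / (2 * π)) • T (rot a t)) x)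
        = fun t => (1 / (2 * π)) * F (x * rot a t) := by
      funext t
      rw [SF.smul_apply, hT2 _ (rot_ne_zero ha t)]
    rw [e, intervalIntegral.integral_const_mul]

/-! ### projection -/

theorem integrable_mul {f g : ℍ → ℝ} (hf : ContinuousOn f {0}ᶜ) (hg : ContinuousOn g {0}ᶜ) :
    IntegrableOn (fun x => f x * g x) shell := integrableOn_shell (hf.mul hg)

theorem surj_gen {V : Type*} [AddCommGroup V] [Module ℝ V] [Module.Finite ℝ V]
    (Φ : V →ₗ[ℝ] Module.Dual ℝ V) (h : ∀ v, Φ v = 0 → v = 0) : Function.Surjective Φ := by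
  have hinj : Function.Injective Φ := (injective_iff_map_eq_zero Φ).2 h
  exact (LinearMap.injective_iff_surjective_of_finrank_eq_finrank
    (Subspace.dual_finrank_eq (K := ℝ) (V := V)).symm).1 hinj

theorem proj_gen (M : Submodule ℝ SF) [Module.Finite ℝ M] (f : ℍ → ℝ) (hf : Cts f) :
    ∃ F ∈ M, ∀ G ∈ M, ip f G = ip F G := by
  let Φ : M →ₗ[ℝ] Module.Dual ℝ M :=
    { toFun := fun F =>
        { toFun := fun G => ip (F : SF) (G : SF)
          map_add' := fun G G' => SF.ip_add_right _ _ _
          map_smul' := fun c G => SF.ip_smul_right _ _ _ }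
      map_add' := fun F F' => by
        ext G; exact SF.ip_add_left _ _ _
      map_smul' := fun c F => by
        ext G; exact SF.ip_smul_left _ _ _ }
  have hinj : ∀ F, Φ F = 0 → F = 0 := by
    intro F hF
    have h1 : ip (F : SF) (F : SF) = 0 := LinearMap.congr_fun hF F
    have h2 : nrm (F : SF) = 0 := by
      have := nrm_sq' ((F : SF) : ℍ → ℝ)
      rw [h1] at this
      exact pow_eq_zero_iff (two_ne_zero) |>.1 this
    exact Subtype.ext (SF.eq_zero_of_nrm h2)
  have hsurj : Function.Surjective Φ := surj_gen (V := M) Φ hinj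
  obtain ⟨F, hF⟩ := hsurj
    { toFun := fun G => ip f (G : SF)
      map_add' := fun G G' => by
        change ip f ((G : SF) + (G' : SF) : SF) = ip f (G : SF) + ip f (G' : SF)
        simp only [ip, SF.add_apply, mul_add]
        exact integral_add (integrable_mul hf.cont (G : SF).continuousOn)
          (integrable_mul hf.cont (G' : SF).continuousOn)
      map_smul' := fun c G => by
        change ip f (c • (G : SF) : SF) = c * ip f (G : SF)
        simp only [ip, SF.smul_apply]
        rw [← integral_const_mul]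
        congr 1; funext x; ring }
  exact ⟨F, F.2, fun G hG => (LinearMap.congr_fun hF ⟨G, hG⟩).symm⟩

/-- integration of derivatives along the circles `x rot(a,t)` -/
theorem integral_flow_eq_zero {a : ℍ} (ha : IsImUnit a) {f g : ℍ → ℝ} (hf : ContinuousOn f {0}ᶜ)
    (hg : ContinuousOn g {0}ᶜ)
    (hd : ∀ x : ℍ, x ≠ 0 → ∀ t : ℝ, HasDerivAt (fun t => f (x * rot a t)) (g (x * rot a t)) t) :
    ∫ x in shell, g x = 0 := by
  obtain ⟨M, hM⟩ := isCompact_shell.exists_bound_of_continuousOn (hg.mono shell_subset)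
  have hfin : IsFiniteMeasure (volume.restrict shell) :=
    ⟨by simpa using isCompact_shell.measure_lt_top⟩
  have hcont : ∀ (F : ℍ → ℝ) (t : ℝ), ContinuousOn F {0}ᶜ →
      ContinuousOn (fun x => F (x * rot a t)) shell := by
    intro F t hF
    apply hF.comp (by fun_prop)
    intro x hx
    exact shell_subset ((mul_mem_shell (norm_rot ha t)).2 hx)
  have key := hasDerivAt_integral_of_dominated_loc_of_deriv_le
    (μ := volume.restrict shell) (F := fun t x => f (x * rot a t))
    (F' := fun t x => g (x * rot a t)) (x₀ := (0:ℝ)) (s := univ)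
    (bound := fun _ => M) Filter.univ_mem
    (Eventually.of_forall fun t => (hcont f t hf).aestronglyMeasurable measurableSet_shell)
    ((hcont f 0 hf).integrableOn_compact isCompact_shell)
    ((hcont g 0 hg).aestronglyMeasurable measurableSet_shell)
    (by
      rw [ae_restrict_iff' measurableSet_shell]
      refine Eventually.of_forall fun x hx t _ => hM _ ?_
      exact (mul_mem_shell (norm_rot ha t)).2 hx)
    (integrable_const M)
    (by
      rw [ae_restrict_iff' measurableSet_shell]
      exact Eventually.of_forall fun x hx t _ => hd x (ne_zero_of_mem_shell hx) t)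
  have hconst : (fun t => ∫ x in shell, f (x * rot a t)) = fun _ => ∫ x in shell, f x := by
    funext t
    exact integral_shell_mul (norm_rot ha t) f
  have h2 := key.2
  rw [hconst] at h2
  have h3 := h2.unique (hasDerivAt_const 0 _)
  simpa [rot_zero] using h3

/-- skew-symmetry of `V` on functions differentiable along the circles -/
theorem ip_flow {f g : ℍ → ℝ} (hf : Cts f) (hg : Cts g)
    (hd : ∀ x : ℍ, x ≠ 0 → ∀ t : ℝ, HasDerivAt (fun t => f (x * rot qI t)) (g (x * rot qI t)) t)
    (G : SF) : ip g G = - ip f (DV G) := by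
  have h := integral_flow_eq_zero isImUnit_I (f := fun x => f x * G x)
    (g := fun x => g x * G x + f x * (DV G) x) (hf.cont.mul G.continuousOn)
    ((hg.cont.mul G.continuousOn).add (hf.cont.mul (DV G).continuousOn))
    (fun x hx t => (hd x hx t).mul (hasDerivAt_DV G hx t))
  rw [integral_add (integrable_mul hg.cont G.continuousOn)
    (integrable_mul hf.cont (DV G).continuousOn)] at h
  simp only [ip]
  linarith

theorem mn_holds : MNFacts where
  finite := fun n => finite_MN n
  mono := MN_mono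
  one_mem := one_mem_MN
  R_mem := R_mem
  Z_mem := Z_mem
  rcomp := rcomp
  lcomp := lcomp
  avgI_mem := fun n F hF => avg_mem n F hF isImUnit_I
  avgK_mem := fun n F hF => avg_mem n F hF isImUnit_K
  proj := fun n f hf => proj_gen (MN n) f hf
  projV := fun n f g hf hg hd F hF hproj G hG => by
    have h1 := hproj (DV G) (R_mem n _ G hG)
    rw [ip_flow hf hg hd G, h1, SF.ip_DV]

end Pool.Agent.MP85963d.H89
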