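import Pool.Agent.Lib.MP_85963d_gt.Interfaces

/-!
# Polynomials on the quaternions
-/

set_option autoImplicit false

open MeasureTheory Set Filter Topology Quaternion
open scoped Real ContDiff

namespace Pool.Agent.MP85963d.H89

open SF

/-- polynomials in four variables -/
abbrev PA : Type := MvPolynomial (Fin 4) ℝ

/-- evaluation at a quaternion -/
noncomputable def pe (P : PA) (x : ℍ) : ℝ := MvPolynomial.eval (qc x) P

/-- coordinates as continuous linear maps -/
noncomputable def qcL (i : Fin 4) : ℍ →L[ℝ] ℝ :=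
  LinearMap.toContinuousLinearMap
    { toFun := fun x => qc x i
      map_add' := by
        intro a b; fin_cases i <;> simp [qc]
      map_smul' := by
        intro r a; fin_cases i <;> simp [qc] }

@[simp] theorem qcL_apply (i : Fin 4) (x : ℍ) : qcL i x = qc x i := rfl

theorem qc_smul (r : ℝ) (x : ℍ) (i : Fin 4) : qc (r • x) i = r * qc x i := by
  have := (qcL i).map_smul r x
  rwa [qcL_apply, qcL_apply, smul_eq_mul] at this

theorem pe_add (P Q : PA) (x : ℍ) : pe (P + Q) x = pe P x + pe Q x := by simp [pe]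
theorem pe_mul (P Q : PA) (x : ℍ) : pe (P * Q) x = pe P x * pe Q x := by simp [pe]
theorem pe_sub (P Q : PA) (x : ℍ) : pe (P - Q) x = pe P x - pe Q x := by simp [pe]
theorem pe_C (c : ℝ) (x : ℍ) : pe (MvPolynomial.C c) x = c := by simp [pe]
theorem pe_X (i : Fin 4) (x : ℍ) : pe (MvPolynomial.X i) x = qc x i := by simp [pe]
theorem pe_zero (x : ℍ) : pe 0 x = 0 := by simp [pe]
theorem pe_one (x : ℍ) : pe 1 x = 1 := by simp [pe]
theorem pe_pow (P : PA) (n : ℕ) (x : ℍ) : pe (P ^ n) x = pe P x ^ n := by simp [pe]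
theorem pe_sum {ι : Type*} (s : Finset ι) (P : ι → PA) (x : ℍ) :
    pe (∑ i ∈ s, P i) x = ∑ i ∈ s, pe (P i) x := by simp [pe]

theorem hasFDerivAt_pe (P : PA) (x : ℍ) :
    HasFDerivAt (pe P) (∑ i, pe (MvPolynomial.pderiv i P) x • qcL i) x := by
  induction P using MvPolynomial.induction_on with
  | C a =>
    have e : pe (MvPolynomial.C a) = fun _ => a := by funext x; exact pe_C a x
    rw [e]
    have : (∑ i : Fin 4, pe (MvPolynomial.pderiv i (MvPolynomial.C a)) x • qcL i) = 0 := by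
      refine Finset.sum_eq_zero fun i _ => ?_
      rw [MvPolynomial.pderiv_C, pe_zero, zero_smul]
    rw [this]
    exact hasFDerivAt_const _ _
  | add P Q hP hQ =>
    have e : pe (P + Q) = pe P + pe Q := by funext x; exact pe_add P Q x
    rw [e]
    have := hP.add hQ
    rw [← Finset.sum_add_distrib] at this
    refine this.congr_fderiv ?_
    refine Finset.sum_congr rfl fun i _ => ?_
    rw [map_add, pe_add, add_smul]
  | mul_X P j hP =>
    have e : pe (P * MvPolynomial.X j) = fun x => pe P x * qcL j x := by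
      funext x; rw [pe_mul, pe_X, qcL_apply]
    rw [e]
    have := hP.mul (qcL j).hasFDerivAt
    refine this.congr_fderiv ?_
    ext v
    simp only [_root_.add_apply, _root_.smul_apply, qcL_apply,
      smul_eq_mul, _root_.sum_apply, MvPolynomial.pderiv_mul, pe_add, pe_mul]
    have h1 : ∀ i : Fin 4, pe (MvPolynomial.pderiv i (MvPolynomial.X j : PA)) x
        = if i = j then 1 else 0 := by
      intro i
      rw [MvPolynomial.pderiv_X]
      by_cases h : i = j
      · subst h; simp [pe_one]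
      · rw [Pi.single_eq_of_ne (Ne.symm h), if_neg h, pe_zero]
    simp only [h1, pe_X]
    have h2 : ∀ i : Fin 4, (pe (MvPolynomial.pderiv i P) x * qc x j
        + pe P x * if i = j then 1 else 0) * qc v i
        = qc x j * (pe (MvPolynomial.pderiv i P) x * qc v i) + if i = j then pe P x * qc v i
          else 0 := by
      intro i
      split_ifs <;> ring
    simp only [h2, Finset.sum_add_distrib, Finset.sum_ite_eq', Finset.mem_univ, if_true]
    rw [← Finset.mul_sum]
    ring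

theorem contDiff_pe (P : PA) : ContDiff ℝ ∞ (pe P) := by
  induction P using MvPolynomial.induction_on with
  | C a =>
    have e : pe (MvPolynomial.C a) = fun _ => a := by funext x; exact pe_C a x
    rw [e]; exact contDiff_const
  | add P Q hP hQ =>
    have e : pe (P + Q) = pe P + pe Q := by funext x; exact pe_add P Q x
    rw [e]; exact hP.add hQ
  | mul_X P j hP =>
    have e : pe (P * MvPolynomial.X j) = fun x => pe P x * qcL j x := by
      funext x; rw [pe_mul, pe_X, qcL_apply]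
    rw [e]; exact hP.mul (qcL j).contDiff

theorem pe_smul_of_hom {P : PA} {n : ℕ} (hP : P.IsHomogeneous n) (r : ℝ) (x : ℍ) :
    pe P (r • x) = r ^ n * pe P x := by
  unfold pe
  rw [MvPolynomial.eval_eq', MvPolynomial.eval_eq', Finset.mul_sum]
  refine Finset.sum_congr rfl fun d hd => ?_
  have h1 : d.degree = n := by
    have := hP (MvPolynomial.mem_support_iff.1 hd)
    rwa [Finsupp.degree_eq_weight_one]
  have h2 : ∏ i, qc (r • x) i ^ d i = r ^ n * ∏ i, qc x i ^ d i := by
    simp only [qc_smul, mul_pow, Finset.prod_mul_distrib]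
    rw [Finset.prod_pow_eq_pow_sum]
    congr 2
    rw [← h1, Finsupp.degree_eq_sum]
  rw [h2]; ring

/-- the square of the norm -/
noncomputable def NN : PA := ∑ i, MvPolynomial.X i ^ 2

theorem pe_NN (x : ℍ) : pe NN x = ‖x‖ ^ 2 := by
  rw [NN, pe_sum, sq ‖x‖, ← Quaternion.normSq_eq_norm_mul_self, Quaternion.normSq_def']
  simp only [pe_pow, pe_X, Fin.sum_univ_four]
  simp [qc]

theorem NN_hom (k : ℕ) : (NN ^ k).IsHomogeneous (2 * k) := by
  have : NN.IsHomogeneous 2 := MvPolynomial.IsHomogeneous.sum _ _ _ fun i _ =>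
    MvPolynomial.isHomogeneous_X_pow _ _
  exact this.pow k

/-- the element of `SF` given by a homogeneous polynomial -/
noncomputable def toSF (n : ℕ) (P : PA) (hP : P.IsHomogeneous (2 * n)) : SF :=
  SF.of (fun x => pe P x / ‖x‖ ^ (2 * n))
    (by
      have h : ContDiff ℝ ∞ (fun x : ℍ => ‖x‖ ^ (2 * n)) := by
        have : (fun x : ℍ => ‖x‖ ^ (2 * n)) = fun x : ℍ => (‖x‖ ^ 2) ^ n := by
          funext x; rw [pow_mul]
        rw [this]; exact (contDiff_norm_sq ℝ).pow n
      refine (contDiff_pe P).contDiffOn.div h.contDiffOn ?_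
      intro x hx
      have : x ≠ 0 := hx
      positivity)
    (by
      intro r x hr hx
      rw [pe_smul_of_hom hP, norm_smul, mul_pow]
      have h1 : ‖r‖ ^ (2 * n) = r ^ (2 * n) := by
        rw [pow_mul, pow_mul, Real.norm_eq_abs, sq_abs]
      rw [h1]
      have h2 : r ^ (2 * n) ≠ 0 := pow_ne_zero _ hr
      exact mul_div_mul_left _ _ h2)

theorem toSF_apply (n : ℕ) (P : PA) (hP : P.IsHomogeneous (2 * n)) {x : ℍ} (hx : x ≠ 0) :
    (toSF n P hP) x = pe P x / ‖x‖ ^ (2 * n) := SF.of_apply hx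

theorem toSF_mem (n : ℕ) (P : PA) (hP : P.IsHomogeneous (2 * n)) : toSF n P hP ∈ MN n :=
  ⟨P, hP, fun _ hx => toSF_apply n P hP hx⟩

/-- as a linear map -/
noncomputable def toSFL (n : ℕ) : MvPolynomial.homogeneousSubmodule (Fin 4) ℝ (2 * n) →ₗ[ℝ] SF where
  toFun P := toSF n P.1 P.2
  map_add' P Q := by
    apply SF.ext'
    intro x hx
    rw [SF.add_apply, toSF_apply _ _ _ hx, toSF_apply _ _ _ hx, toSF_apply _ _ _ hx]
    change pe (P.1 + Q.1) x / _ = _
    rw [pe_add, add_div]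
  map_smul' c P := by
    apply SF.ext'
    intro x hx
    rw [RingHom.id_apply, SF.smul_apply, toSF_apply _ _ _ hx, toSF_apply _ _ _ hx]
    change pe (c • P.1) x / _ = _
    rw [MvPolynomial.smul_eq_C_mul, pe_mul, pe_C, mul_div_assoc]

theorem range_toSFL (n : ℕ) : LinearMap.range (toSFL n) = MN n := by
  ext F
  constructor
  · rintro ⟨P, rfl⟩
    exact toSF_mem n P.1 P.2
  · rintro ⟨P, hP, hF⟩
    refine ⟨⟨P, hP⟩, ?_⟩
    apply SF.ext'
    intro x hx
    change (toSF n P hP) x = F x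
    rw [toSF_apply _ _ _ hx, hF x hx]
    rfl

instance finite_MN (n : ℕ) : Module.Finite ℝ (MN n) := by
  rw [← range_toSFL]
  have : Module.Finite ℝ (MvPolynomial.homogeneousSubmodule (Fin 4) ℝ (2 * n)) :=
    Module.Finite.iff_fg.2 (MvPolynomial.homogeneousSubmodule_fg (Fin 4) ℝ (2 * n))
  infer_instance

theorem MN_succ (n k : ℕ) : MN n ≤ MN (n + k) := by
  rintro F ⟨P, hP, hF⟩
  refine ⟨P * NN ^ k, ?_, fun x hx => ?_⟩
  · have := hP.mul (NN_hom k)
    rwa [← mul_add] at this
  · have h1 : MvPolynomial.eval (qc x) (P * NN ^ k) = pe P x * (‖x‖ ^ 2) ^ k := by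
      change pe (P * NN ^ k) x = _
      rw [pe_mul, pe_pow, pe_NN]
    have hx' : ‖x‖ ≠ 0 := norm_ne_zero_iff.2 hx
    rw [hF x hx, h1, mul_add, pow_add, pow_mul ‖x‖ 2 k]
    have h2 : (‖x‖ ^ 2) ^ k ≠ 0 := by positivity
    exact (mul_div_mul_right _ _ h2).symm

theorem MN_mono (m n : ℕ) (h : m ≤ n) : MN m ≤ MN n := by
  obtain ⟨k, rfl⟩ := Nat.exists_eq_add_of_le h
  exact MN_succ m k

theorem one_mem_MN (n : ℕ) : (1 : SF) ∈ MN n := by
  refine MN_mono 0 n (Nat.zero_le n) ⟨1, by simpa using MvPolynomial.isHomogeneous_one _ _, ?_⟩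
  intro x hx
  rw [SF.one_apply hx]; simp

/-! ### composition with linear maps -/

theorem eval_aeval' (f : Fin 4 → ℝ) (g : Fin 4 → PA) (P : PA) :
    MvPolynomial.eval f (MvPolynomial.aeval g P)
      = MvPolynomial.eval (fun i => MvPolynomial.eval f (g i)) P := by
  induction P using MvPolynomial.induction_on with
  | C a => simp
  | add P Q hP hQ => rw [map_add, map_add, map_add, hP, hQ]
  | mul_X P j hP => rw [map_mul, map_mul, map_mul, hP, MvPolynomial.aeval_X, MvPolynomial.eval_X]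

/-- composition of a polynomial with a linear map -/
theorem exists_comp (A : ℍ →ₗ[ℝ] ℍ) {P : PA} {n : ℕ} (hP : P.IsHomogeneous n) :
    ∃ Q : PA, Q.IsHomogeneous n ∧ ∀ x : ℍ, pe Q x = pe P (A x) := by
  -- the basis
  let e : Fin 4 → ℍ := ![⟨1, 0, 0, 0⟩, ⟨0, 1, 0, 0⟩, ⟨0, 0, 1, 0⟩, ⟨0, 0, 0, 1⟩]
  have hdec : ∀ x : ℍ, x = ∑ j, qc x j • e j := by
    intro x
    simp only [Fin.sum_univ_four, e, qc]
    apply Quaternion.ext <;> simp
  let g : Fin 4 → PA := fun i => ∑ j, MvPolynomial.C (qc (A (e j)) i) * MvPolynomial.X j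
  have hg : ∀ i, (g i).IsHomogeneous 1 := fun i =>
    MvPolynomial.IsHomogeneous.sum _ _ _ fun j _ => by
      simpa using (MvPolynomial.isHomogeneous_X ℝ j).C_mul (qc (A (e j)) i)
  refine ⟨MvPolynomial.aeval g P, by simpa using hP.aeval g hg, fun x => ?_⟩
  have h1 : ∀ i, pe (g i) x = qc (A x) i := by
    intro i
    conv_rhs => rw [hdec x, map_sum]
    rw [← qcL_apply, map_sum, pe_sum]
    refine Finset.sum_congr rfl fun j _ => ?_
    rw [map_smul, map_smul, pe_mul, pe_C, pe_X, qcL_apply, smul_eq_mul, mul_comm]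
  unfold pe at h1 ⊢
  have h2 : qc (A x) = fun i => MvPolynomial.eval (qc x) (g i) := by
    funext i; exact (h1 i).symm
  rw [h2, eval_aeval']

theorem norm_rm (ρ x : ℍ) : ‖x * ρ‖ = ‖x‖ * ‖ρ‖ := norm_mul _ _

theorem rcomp (n : ℕ) (ρ : ℍ) (F : SF) (hρ : ρ ≠ 0) (hF : F ∈ MN n) :
    ∃ G ∈ MN n, ∀ x : ℍ, G x = F (x * ρ) := by
  obtain ⟨P, hP, hF⟩ := hF
  obtain ⟨Q, hQ, hPQ⟩ := exists_comp (rm ρ : ℍ →ₗ[ℝ] ℍ) hP
  have hn : (‖ρ‖ ^ (2 * n))⁻¹ ≠ 0 := by positivity
  refine ⟨(‖ρ‖ ^ (2 * n))⁻¹ • toSF n Q hQ, (MN n).smul_mem _ (toSF_mem n Q hQ), fun x => ?_⟩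
  by_cases hx : x = 0
  · subst hx; rw [zero_mul, SF.map_zero', SF.map_zero']
  · rw [hF _ (mul_ne_zero hx hρ), SF.smul_apply, toSF_apply _ _ _ hx, hPQ, norm_mul, mul_pow]
    change _ = pe P (x * ρ) / _
    have e : ((rm ρ : ℍ →ₗ[ℝ] ℍ) x) = x * ρ := rfl
    rw [e]
    have h1 : ‖x‖ ^ (2 * n) ≠ 0 := by positivity
    have h2 : ‖ρ‖ ^ (2 * n) ≠ 0 := by positivity
    field_simp

theorem lcomp (n : ℕ) (ρ : ℍ) (F : SF) (hρ : ρ ≠ 0) (hF : F ∈ MN n) :
    ∃ G ∈ MN n, ∀ x : ℍ, G x = F (ρ * x) := by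
  obtain ⟨P, hP, hF⟩ := hF
  obtain ⟨Q, hQ, hPQ⟩ := exists_comp (lm ρ : ℍ →ₗ[ℝ] ℍ) hP
  have hn : (‖ρ‖ ^ (2 * n))⁻¹ ≠ 0 := by positivity
  refine ⟨(‖ρ‖ ^ (2 * n))⁻¹ • toSF n Q hQ, (MN n).smul_mem _ (toSF_mem n Q hQ), fun x => ?_⟩
  by_cases hx : x = 0
  · subst hx; rw [mul_zero, SF.map_zero', SF.map_zero']
  · rw [hF _ (mul_ne_zero hρ hx), SF.smul_apply, toSF_apply _ _ _ hx, hPQ, norm_mul, mul_pow]
    change _ = pe P (ρ * x) / _
    have e : ((lm ρ : ℍ →ₗ[ℝ] ℍ) x) = ρ * x := rfl
    rw [e]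
    have h1 : ‖x‖ ^ (2 * n) ≠ 0 := by positivity
    have h2 : ‖ρ‖ ^ (2 * n) ≠ 0 := by positivity
    field_simp

/-! ### interpolation -/

/-- in a finite-dimensional space of functions, the values at finitely many points determine
the function, by a linear formula -/
theorem interp_gen {X V : Type*} [AddCommGroup V] [Module ℝ V] [Module.Finite ℝ V]
    (ev : V →ₗ[ℝ] (X → ℝ)) (hev : ∀ v, ev v = 0 → v = 0) :
    ∃ (s : Finset X) (b : X → V), ∀ v, v = ∑ x ∈ s, ev v x • b x := by
  classical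
  -- the restrictions
  let r : Finset X → (V →ₗ[ℝ] (X → ℝ)) := fun s =>
    { toFun := fun F x => if x ∈ s then ev F x else 0
      map_add' := by
        intro F G; funext x
        simp only [map_add, Pi.add_apply]
        split_ifs <;> simp
      map_smul' := by
        intro c F; funext x
        simp only [map_smul, Pi.smul_apply, smul_eq_mul, RingHom.id_apply]
        split_ifs <;> simp }
  have hr : ∀ s F x, r s F x = if x ∈ s then ev F x else 0 := fun _ _ _ => rfl
  obtain ⟨K, ⟨s, rfl⟩, hK⟩ := WellFounded.has_min (wellFounded_lt (α := Submodule ℝ V))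
    (Set.range fun s => LinearMap.ker (r s)) ⟨_, ⟨∅, rfl⟩⟩
  have hker : LinearMap.ker (r s) = ⊥ := by
    by_contra hne
    obtain ⟨F, hF, hF0⟩ := Submodule.exists_mem_ne_zero_of_ne_bot hne
    have : ∃ x : X, ev F x ≠ 0 := by
      by_contra hx
      push Not at hx
      apply hF0
      apply hev
      funext x
      exact hx x
    obtain ⟨x, hx⟩ := this
    refine hK (LinearMap.ker (r (insert x s))) ⟨_, rfl⟩ ?_
    refine lt_of_le_of_ne ?_ ?_
    · intro G hG
      rw [LinearMap.mem_ker] at hG ⊢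
      funext z
      have := congrFun hG z
      rw [hr] at this ⊢
      by_cases hz : z ∈ s
      · rw [if_pos hz]
        rwa [if_pos (Finset.mem_insert_of_mem hz)] at this
      · rw [if_neg hz]; rfl
    · intro h
      have : F ∈ LinearMap.ker (r (insert x s)) := by rw [h]; exact hF
      rw [LinearMap.mem_ker] at this
      have := congrFun this x
      rw [hr, if_pos (Finset.mem_insert_self _ _)] at this
      exact hx this
  obtain ⟨g, hg⟩ := LinearMap.exists_leftInverse_of_injective (r s) hker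
  refine ⟨s, fun x => g (Pi.single x 1), fun F => ?_⟩
  have h1 : g (r s F) = F := LinearMap.congr_fun hg F
  have h2 : r s F = ∑ x ∈ s, ev F x • (Pi.single x 1 : X → ℝ) := by
    funext z
    rw [hr, Finset.sum_apply]
    simp only [Pi.smul_apply, Pi.single_apply, smul_eq_mul, mul_ite, mul_one, mul_zero]
    rw [Finset.sum_ite_eq]
  rw [h2, map_sum] at h1
  conv_lhs => rw [← h1]
  simp only [map_smul]

/-- evaluation as a linear map -/
noncomputable def evL (M : Submodule ℝ SF) : M →ₗ[ℝ] (ℍ → ℝ) where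
  toFun F := ((F : SF) : ℍ → ℝ)
  map_add' F G := by
    funext x; exact SF.add_apply _ _ _
  map_smul' c F := by
    funext x; exact SF.smul_apply _ _ _

theorem interp (M : Submodule ℝ SF) [Module.Finite ℝ M] :
    ∃ (s : Finset ℍ) (b : ℍ → SF), (∀ x, b x ∈ M) ∧
      ∀ F ∈ M, F = ∑ x ∈ s, F x • b x := by
  obtain ⟨s, b, h⟩ := interp_gen (V := M) (evL M) (by
    intro F hF
    apply Subtype.ext
    apply SF.ext'
    intro x _
    exact (congrFun hF x).trans (SF.zero_apply x).symm)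
  refine ⟨s, fun x => (b x : SF), fun x => (b x).2, fun F hF => ?_⟩
  have h1 := congrArg (Subtype.val : M → SF) (h ⟨F, hF⟩)
  rw [Submodule.coe_sum] at h1
  exact h1

/-- a function which is a pointwise derivative of a family in `M` belongs to `M` -/
theorem mem_of_deriv (M : Submodule ℝ SF) [Module.Finite ℝ M] (G : SF) (f : ℝ → SF)
    (hf : ∀ᶠ t in 𝓝 (0 : ℝ), f t ∈ M)
    (hd : ∀ x : ℍ, x ≠ 0 → HasDerivAt (fun t => f t x) (G x) 0) : G ∈ M := by
  obtain ⟨s, b, hb, hs⟩ := interp M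
  have hd' : ∀ x : ℍ, HasDerivAt (fun t => f t x) (G x) 0 := by
    intro x
    by_cases hx : x = 0
    · subst hx
      simp only [SF.map_zero']
      exact hasDerivAt_const _ _
    · exact hd x hx
  have : G = ∑ x ∈ s, G x • b x := by
    apply SF.ext'
    intro z hz
    rw [SF.sum_apply]
    have h1 : HasDerivAt (fun t => ∑ x ∈ s, f t x * (b x) z) (∑ x ∈ s, G x * (b x) z) 0 :=
      HasDerivAt.fun_sum fun x _ => (hd' x).mul_const _
    have h2 : (fun t => f t z) =ᶠ[𝓝 0] fun t => ∑ x ∈ s, f t x * (b x) z := by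
      filter_upwards [hf] with t ht
      have := hs (f t) ht
      conv_lhs => rw [this]
      rw [SF.sum_apply]
      simp only [SF.smul_apply]
    have h3 := h1.congr_of_eventuallyEq h2
    rw [(hd z hz).unique h3]
    simp only [SF.smul_apply]
  rw [this]
  exact M.sum_mem fun x _ => M.smul_mem _ (hb x)

/-- a function which is a pointwise integral of a family in `M` belongs to `M` -/
theorem mem_of_integral (M : Submodule ℝ SF) [Module.Finite ℝ M] (g : ℍ → ℝ) (f : ℝ → SF)
    (a c : ℝ) (hf : ∀ t, f t ∈ M)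
    (hd : ∀ x : ℍ, IntervalIntegrable (fun t => f t x) volume a c)
    (hg : ∀ x : ℍ, x ≠ 0 → g x = ∫ t in a..c, f t x) :
    ∃ G ∈ M, ∀ x : ℍ, x ≠ 0 → G x = g x := by
  obtain ⟨s, b, hb, hs⟩ := interp M
  refine ⟨∑ x ∈ s, (∫ t in a..c, f t x) • b x, M.sum_mem fun x _ => M.smul_mem _ (hb x),
    fun z hz => ?_⟩
  rw [hg z hz, SF.sum_apply]
  simp only [SF.smul_apply]
  have h2 : (fun t => f t z) = fun t => ∑ x ∈ s, f t x * (b x) z := by
    funext t
    have := hs (f t) (hf t)
    conv_lhs => rw [this]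
    rw [SF.sum_apply]
    simp only [SF.smul_apply]
  rw [h2, intervalIntegral.integral_finsetSum]
  · refine Finset.sum_congr rfl fun x _ => ?_
    rw [intervalIntegral.integral_mul_const]
  · intro x _
    exact (hd x).mul_const _

end Pool.Agent.MP85963d.H89
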