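import Pool.Agent.Lib.MP_85963d_gt.H89.MN

/-!
# Module SPEC: spectral gap of `Δ` on the polynomial spaces
-/

set_option autoImplicit false

open MeasureTheory Set Filter Topology Quaternion
open scoped Real ContDiff

namespace Pool.Agent.MP85963d.H89

open SF MvPolynomial

/-- the linear forms of left multiplication by the units -/
noncomputable def bf : Fin 3 → Fin 4 → PA :=
  ![![-X 1, X 0, -X 3, X 2], ![-X 2, X 3, X 0, -X 1], ![-X 3, -X 2, X 1, X 0]]

/-- derivation along left multiplication by a unit -/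
noncomputable def Dp (c : Fin 3) (P : PA) : PA := ∑ i, bf c i * pderiv i P

/-- the Laplacian of `ℝ⁴` -/
noncomputable def Lp (P : PA) : PA := ∑ i, pderiv i (pderiv i P)

theorem pe_neg (P : PA) (x : ℍ) : pe (-P) x = - pe P x := by simp [pe]

theorem pe_bf (c : Fin 3) (i : Fin 4) (x : ℍ) : pe (bf c i) x = qc (qU c * x) i := by
  fin_cases c <;> fin_cases i <;>
    simp [bf, pe_neg, pe_X, qU, qc, qI, qJ, qK, Quaternion.re_mul, Quaternion.imI_mul,
      Quaternion.imJ_mul, Quaternion.imK_mul]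

theorem pderiv_comm' (i j : Fin 4) (P : PA) :
    pderiv i (pderiv j P) = pderiv j (pderiv i P) := by
  induction P using MvPolynomial.induction_on with
  | C a => simp
  | add P Q hP hQ => rw [map_add, map_add, map_add, map_add, hP, hQ]
  | mul_X P k hP =>
    simp only [pderiv_mul, map_add, hP]
    have h : ∀ i j : Fin 4, pderiv i (pderiv j (X k : PA)) = 0 := by
      intro i j
      rw [pderiv_X]
      by_cases hjk : j = k
      · subst hjk; simp
      · rw [Pi.single_eq_of_ne (Ne.symm hjk), map_zero]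
    rw [h, h]
    ring

theorem op_identity (P : PA) :
    ∑ c, Dp c (Dp c P) = NN * Lp P - ∑ i, X i * pderiv i (∑ j, X j * pderiv j P)
      - 2 * ∑ i, X i * pderiv i P := by
  simp only [Dp, Lp, NN, Fin.sum_univ_three, Fin.sum_univ_four, bf, Matrix.cons_val_zero,
    Matrix.cons_val_one, Matrix.cons_val, map_add, map_neg, pderiv_mul, pderiv_X, Pi.single_apply]
  simp only [pderiv_comm' 1 0, pderiv_comm' 2 0, pderiv_comm' 3 0, pderiv_comm' 2 1,
    pderiv_comm' 3 1, pderiv_comm' 3 2]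
  simp
  ring

theorem hC2 : (C 2 : PA) = 2 := map_ofNat (C : ℝ →+* PA) 2

theorem C_eq_coe_nat' (m : ℕ) : (C (m : ℝ) : PA) = (m : PA) := map_natCast (C : ℝ →+* PA) m

theorem Dp_hom (m : ℕ) (P : PA) (hP : P.IsHomogeneous (2 * m)) :
    ∑ c, Dp c (Dp c P) = NN * Lp P - C (4 * ((m : ℝ) * (m + 1))) * P := by
  have e1 : ∑ i, X i * pderiv i P = C (2 * (m : ℝ)) * P := by
    rw [hP.sum_X_mul_pderiv, nsmul_eq_mul]
    congr 1
    rw [C_mul, hC2]
    push_cast
    rw [C_eq_coe_nat']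
  have e2 : ∑ i, X i * pderiv i (∑ j, X j * pderiv j P) = C (2 * (m : ℝ)) * (C (2 * (m : ℝ)) * P) := by
    rw [e1]
    simp only [pderiv_C_mul]
    have : ∀ i : Fin 4, X i * (C (2 * (m : ℝ)) * pderiv i P)
        = C (2 * (m : ℝ)) * (X i * pderiv i P) := fun i => by ring
    simp only [this]
    rw [← Finset.mul_sum, e1]
  have e3 : (C (4 * ((m : ℝ) * (m + 1))) : PA)
      = C (2 * (m : ℝ)) * C (2 * (m : ℝ)) + 2 * C (2 * (m : ℝ)) := by
    rw [← hC2, ← C_mul, ← C_mul, ← C_add]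
    congr 1
    ring
  rw [op_identity, e2, e1, e3]
  ring

/-- the left fields on polynomials divided by powers of the norm -/
theorem DZ_pe (m : ℕ) (c : Fin 3) (P : PA) (F : SF)
    (hF : ∀ x : ℍ, x ≠ 0 → F x = pe P x / ‖x‖ ^ (2 * m)) {x : ℍ} (hx : x ≠ 0) :
    (DZ c F) x = (1 / 2) * pe (Dp c P) x / ‖x‖ ^ (2 * m) := by
  have h1 := hasDerivAt_DZ c F hx 0
  rw [rot_zero, one_mul] at h1
  have h2 : (fun t => F (rot (qU c) t * x)) = fun t => pe P (rot (qU c) t * x) / ‖x‖ ^ (2 * m) := by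
    funext t
    rw [hF _ (lrot_ne_zero (isImUnit_qU c) hx t), norm_mul, norm_rot (isImUnit_qU c), one_mul]
  rw [h2] at h1
  have h3 : HasDerivAt (fun t => rot (qU c) t * x) ((((1 / 2 : ℝ) • qU c) * rot (qU c) 0) * x) 0 :=
    (hasDerivAt_rot_left (isImUnit_qU c) 0).mul_const x
  have h4 : HasFDerivAt (pe P) (∑ i, pe (pderiv i P) x • qcL i) (rot (qU c) 0 * x) := by
    rw [rot_zero, one_mul]; exact hasFDerivAt_pe P x
  have h5 := (HasFDerivAt.comp_hasDerivAt (0 : ℝ) h4 h3).div_const (‖x‖ ^ (2 * m))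
  rw [h1.unique h5]
  congr 1
  rw [rot_zero, mul_one, smul_mul_assoc, map_smul, smul_eq_mul, Dp, pe_sum]
  congr 1
  rw [_root_.sum_apply]
  refine Finset.sum_congr rfl fun i _ => ?_
  rw [_root_.smul_apply, qcL_apply, pe_mul, pe_bf, smul_eq_mul]
  ring

theorem Lp_hom (m : ℕ) (P : PA) (hP : P.IsHomogeneous (2 * (m + 1))) :
    (Lp P).IsHomogeneous (2 * m) :=
  MvPolynomial.IsHomogeneous.sum _ _ _ fun i _ => by
    have := (hP.pderiv (i := i)).pderiv (i := i)
    have e : 2 * (m + 1) - 1 - 1 = 2 * m := by omega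
    rwa [e] at this

/-- `Δ + (m+1)(m+2)` lowers the degree -/
theorem lap_add_mem (m : ℕ) (F : SF) (hF : F ∈ MN (m + 1)) :
    Lap F + (((m : ℝ) + 1) * (m + 2)) • F ∈ MN m := by
  obtain ⟨P, hP, hF⟩ := hF
  refine ⟨C (1 / 4) * Lp P, (Lp_hom m P hP).C_mul _, fun x hx => ?_⟩
  change _ = pe (C (1 / 4) * Lp P) x / _
  have h1 : ∀ c, (DZ c (DZ c F)) x = (1 / 4) * pe (Dp c (Dp c P)) x / ‖x‖ ^ (2 * (m + 1)) := by
    intro c
    have e1 : ∀ x : ℍ, x ≠ 0 → (DZ c F) x = pe (C (1 / 2) * Dp c P) x / ‖x‖ ^ (2 * (m + 1)) := by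
      intro x hx
      rw [DZ_pe (m + 1) c P F hF hx, pe_mul, pe_C]
    rw [DZ_pe (m + 1) c _ _ e1 hx]
    have e2 : Dp c (C (1 / 2) * Dp c P) = C (1 / 2) * Dp c (Dp c P) := by
      have : ∀ Q : PA, Dp c (C (1 / 2) * Q) = C (1 / 2) * Dp c Q := by
        intro Q
        simp only [Dp, pderiv_C_mul, Finset.mul_sum]
        exact Finset.sum_congr rfl fun i _ => by ring
      exact this _
    rw [e2, pe_mul, pe_C]
    ring
  have h2 : (Lap F) x = (1 / 4) * pe (∑ c, Dp c (Dp c P)) x / ‖x‖ ^ (2 * (m + 1)) := by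
    rw [Lap_eq, SF.add_apply, SF.add_apply, h1, h1, h1, pe_sum, Fin.sum_univ_three]
    ring
  have h3 := Dp_hom (m + 1) P hP
  have hx' : ‖x‖ ≠ 0 := norm_ne_zero_iff.2 hx
  have hP' : F x = pe P x / ‖x‖ ^ (2 * (m + 1)) := hF x hx
  rw [SF.add_apply, SF.smul_apply, h2, h3, pe_sub, pe_mul, pe_mul, pe_C, pe_NN, hP', pe_mul, pe_C,
    mul_add 2 m 1, pow_add]
  push_cast
  field_simp
  ring

theorem ip_zero_right (f : ℍ → ℝ) : ip f (0 : SF) = 0 := by simp [ip]

theorem lap_symm (F G : SF) : ip (Lap F) G = ip F (Lap G) := by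
  rw [Lap_eq, Lap_eq]
  simp only [ip_add_left, ip_add_right, ip_DZ, neg_neg]

theorem lap_mem (n : ℕ) (F : SF) (hF : F ∈ MN n) : Lap F ∈ MN n := by
  rw [Lap_eq]
  have h : ∀ c, DZ c (DZ c F) ∈ MN n := fun c => Z_mem n _ _ (Z_mem n _ _ hF)
  exact (MN n).add_mem ((MN n).add_mem (h 0) (h 1)) (h 2)

theorem spec_holds : SpecStatement := by
  intro n m
  induction m with
  | zero =>
    intro F hF h
    have h0 : ip F F = 0 := h F (MN_mono 0 n (Nat.zero_le n) hF)
    have h1 : nrm F = 0 := by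
      have := nrm_sq' (F : ℍ → ℝ)
      rw [h0] at this
      exact (pow_eq_zero_iff two_ne_zero).1 this
    have h2 := SF.eq_zero_of_nrm h1
    rw [h1, h2, ip_zero_right]
    simp
  | succ m ih =>
    intro F hF h
    rcases Nat.lt_or_ge m n with hmn | hmn
    · have h0 : ip F F = 0 := h F (MN_mono (m + 1) n hmn hF)
      have h1 : nrm F = 0 := by
        have := nrm_sq' (F : ℍ → ℝ)
        rw [h0] at this
        exact (pow_eq_zero_iff two_ne_zero).1 this
      have h2 := SF.eq_zero_of_nrm h1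
      rw [h1, h2, ip_zero_right]
      simp
    · obtain ⟨F2, hF2, hproj⟩ := proj_gen (MN m) F ⟨F.continuousOn, fun r x hr _ => F.hom hr x⟩
      obtain ⟨F1, hF1⟩ : ∃ F1 : SF, F1 = F - F2 := ⟨_, rfl⟩
      have hF1m : F1 ∈ MN (m + 1) := by
        rw [hF1]; exact (MN (m + 1)).sub_mem hF (MN_mono m (m + 1) (Nat.le_succ m) hF2)
      have hdec : F = F1 + F2 := by rw [hF1]; abel
      have horth : ∀ G ∈ MN m, ip F1 G = 0 := by
        intro G hG
        have e : F1 = F + -F2 := by rw [hF1]; abel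
        rw [e, ip_add_left, ip_neg_left, hproj G hG]; ring
      have h2 : ∀ G ∈ MN n, ip F2 G = 0 := by
        intro G hG
        rw [← hproj G (MN_mono n m hmn hG)]
        exact h G hG
      have i2 := ih F2 hF2 h2
      have e1 : ip F1 F2 = 0 := horth F2 hF2
      have e2 : ip F1 (Lap F2) = 0 := horth _ (lap_mem m F2 hF2)
      have e3 : ip (Lap F2) F1 = 0 := by rw [ip_comm]; exact e2
      have e4 : ip (Lap F1) F2 = 0 := by rw [lap_symm]; exact e2
      have e5 : ip (Lap F1) F1 = -((((m : ℝ) + 1) * (m + 2)) * ip F1 F1) := by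
        have := horth _ (lap_add_mem m F1 hF1m)
        rw [ip_add_right, ip_smul_right, ← lap_symm] at this
        linarith
      have e6 : ip (Lap F) F = ip (Lap F1) F1 + ip (Lap F2) F2 := by
        rw [hdec, map_add, ip_add_left, ip_add_right, ip_add_right, e4, e3]
        ring
      have e7 : nrm F ^ 2 = nrm F1 ^ 2 + nrm F2 ^ 2 := by
        rw [nrm_sq', nrm_sq', nrm_sq', hdec, ip_add_left, ip_add_right, ip_add_right, e1,
          ip_comm F2 F1, e1]
        ring
      rw [e6, e7, e5, ← nrm_sq']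
      have hn : (n : ℝ) ≤ m := by exact_mod_cast hmn
      have h3 : ((n : ℝ) + 1) * (n + 2) ≤ ((m : ℝ) + 1) * (m + 2) := by
        have : (0 : ℝ) ≤ n := Nat.cast_nonneg n
        nlinarith
      have h4 := mul_le_mul_of_nonneg_right h3 (sq_nonneg (nrm F1))
      linarith

end Pool.Agent.MP85963d.H89
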